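import Pool.Agent.TH603.Cut.Deg

set_option autoImplicit false

/-!
# Beyond Nagata's inequality at `D t ^ 2` very general points

For every `D ≥ 1` and every `ε > 0` there is `t0` such that for all `t ≥ t0` and `n = D t ^ 2` very
general points of the complex projective plane:
* a curve of degree `d` with multiplicity at least `m i` at the `i`-th point, where
  `∑ m i ≥ n (n / 2 + 2)`, satisfies `d + 3 / 2 + ε > (∑ m i + n / 2) / √n`;
* if the `m i` are in `{b, b + 1}` for some `b` and `d + 3 / 2 ≥ (∑ m i + n / 2) / √n + ε`, there is a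
  curve of degree `d` with multiplicity at least `m i` at the `i`-th point for every `i`.
-/

namespace Pool.Agent.Results.MP_bb3511_ag.BeyondNagata

open MvPolynomial

/-- The form `F` has multiplicity at least `m` at the point `(p 0 : p 1 : 1)` of the plane. -/
def MultGE (p : Fin 2 → ℂ) (F : MvPolynomial (Fin 3) ℂ) (m : ℕ) : Prop :=
  F ∈ (Ideal.span ({X 0 - C (p 0) * X 2, X 1 - C (p 1) * X 2} :
    Set (MvPolynomial (Fin 3) ℂ))) ^ m

open Finset in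
theorem cond_small {n : ℕ} {w : Fin n → ℕ} {b d : ℕ} {ε : ℝ} (hε : 0 < ε)
    (hn : 1 ≤ 4 * (ε * √(n : ℝ))) (hw : ∀ i, w i = b ∨ w i = b + 1)
    (hd : ((∑ i, (w i : ℝ)) + (n : ℝ) / 2) / √(n : ℝ) + ε ≤ (d : ℝ) + 3 / 2) :
    ∑ i, (w i + 1).choose 2 < (d + 2).choose 2 := by
  obtain ⟨r, hr⟩ : ∃ r, r = √(n : ℝ) := ⟨_, rfl⟩
  obtain ⟨S, hS⟩ : ∃ S, S = ∑ i, (w i : ℝ) := ⟨_, rfl⟩
  rw [← hr] at hn hd
  rw [← hS] at hd
  have hrr : r * r = n := by rw [hr]; exact Real.mul_self_sqrt (Nat.cast_nonneg n)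
  have hr0 : 0 < r := by
    have h0 : 0 ≤ r := by rw [hr]; exact Real.sqrt_nonneg _
    rcases h0.eq_or_lt with h | h
    · rw [← h, mul_zero] at hn; norm_num at hn
    · exact h
  have hn0 : (0 : ℝ) < n := by rw [← hrr]; positivity
  have hS0 : 0 ≤ S := by rw [hS]; positivity
  -- the variance of near equal numbers
  have hvar : (n : ℝ) * ∑ i, (w i : ℝ) ^ 2 ≤ S ^ 2 + (n : ℝ) ^ 2 / 4 := by
    obtain ⟨k, hk⟩ : ∃ k : ℝ, k = S - n * b := ⟨_, rfl⟩
    have e1 : ∑ i, ((w i : ℝ) - b) = k := by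
      rw [sum_sub_distrib, hk, hS]; simp
    have e2 : ∑ i, ((w i : ℝ) - b) ^ 2 = k := by
      rw [← e1]
      refine sum_congr rfl fun i _ => ?_
      rcases hw i with h | h <;> rw [h] <;> push_cast <;> ring
    have e3 : ∑ i, (w i : ℝ) ^ 2 = k + 2 * b * S - n * b ^ 2 := by
      rw [← e2, hS, mul_sum, ← sum_add_distrib]
      have : (n : ℝ) * b ^ 2 = ∑ _i : Fin n, (b : ℝ) ^ 2 := by simp
      rw [this, ← sum_sub_distrib]
      refine sum_congr rfl fun i _ => ?_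
      ring
    have e4 : S = k + n * b := by rw [hk]; ring
    rw [e3, e4]
    nlinarith [sq_nonneg (k - n / 2)]
  obtain ⟨u, hu⟩ : ∃ u, u = (S + (n : ℝ) / 2) / r := ⟨_, rfl⟩
  rw [← hu] at hd
  have hur : u * r = S + n / 2 := by rw [hu, div_mul_cancel₀ _ hr0.ne']
  have hu0 : 0 ≤ u := by rw [hu]; positivity
  have hul : r / 2 ≤ u := by
    have h1 : (r / 2) * r ≤ u * r := by
      rw [hur, div_mul_eq_mul_div, hrr]
      linarith
    exact le_of_mul_le_mul_right h1 hr0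
  have h2 : (u + ε) ^ 2 ≤ ((d : ℝ) + 3 / 2) ^ 2 := pow_le_pow_left₀ (by positivity) hd 2
  have h3 : 2 * ε * (r / 2) ≤ 2 * ε * u := mul_le_mul_of_nonneg_left hul (by positivity)
  have h6 : n * u ^ 2 = (S + n / 2) ^ 2 := by
    rw [← hur, mul_pow, ← hrr]; ring
  have h7 : u ^ 2 < ((d : ℝ) + 3 / 2) ^ 2 - 1 / 4 := by
    have e : (u + ε) ^ 2 = u ^ 2 + 2 * ε * u + ε ^ 2 := by ring
    rw [e] at h2
    have : 0 < ε ^ 2 := by positivity
    nlinarith
  have h8 : (n : ℝ) * (∑ i, (w i : ℝ) ^ 2 + S) < n * (((d : ℝ) + 2) * (d + 1)) := by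
    have e1 : ((d : ℝ) + 2) * (d + 1) = ((d : ℝ) + 3 / 2) ^ 2 - 1 / 4 := by ring
    rw [e1]
    have h9 : n * u ^ 2 < n * (((d : ℝ) + 3 / 2) ^ 2 - 1 / 4) := mul_lt_mul_of_pos_left h7 hn0
    rw [h6] at h9
    nlinarith
  have h9 := lt_of_mul_lt_mul_left h8 hn0.le
  have h10 : 2 * ((d + 2).choose 2 : ℝ) = ((d : ℝ) + 2) * (d + 1) := by
    rw [Nat.cast_choose_two]; push_cast; ring
  have h11 : 2 * ((∑ i, (w i + 1).choose 2 : ℕ) : ℝ) = ∑ i, (w i : ℝ) ^ 2 + S := by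
    push_cast
    rw [hS, ← sum_add_distrib, mul_sum]
    refine sum_congr rfl fun i _ => ?_
    rw [Nat.cast_choose_two]; push_cast; ring
  have h12 : ((∑ i, (w i + 1).choose 2 : ℕ) : ℝ) < (((d + 2).choose 2 : ℕ) : ℝ) := by linarith
  exact_mod_cast h12

theorem result (D : ℕ) (hD : 1 ≤ D) (ε : ℝ) (hε : 0 < ε) : ∃ t0 : ℕ, ∀ t : ℕ, t0 ≤ t →
    ∀ n : ℕ, n = D * t ^ 2 →
    ∃ G : ℕ → MvPolynomial (Fin n × Fin 2) ℂ, (∀ k, G k ≠ 0) ∧
      ∀ P : Fin n → Fin 2 → ℂ, (∀ k, eval (fun q : Fin n × Fin 2 => P q.1 q.2) (G k) ≠ 0) →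
      ∀ (m : Fin n → ℕ) (d : ℕ),
        ((n : ℝ) * (n / 2 + 2) ≤ ∑ i, (m i : ℝ) →
          ∀ F : MvPolynomial (Fin 3) ℂ, F ≠ 0 → F.IsHomogeneous d →
            (∀ i, MultGE (P i) F (m i)) →
            ((∑ i, (m i : ℝ)) + n / 2) / √(n : ℝ) < d + 3 / 2 + ε) ∧
        (∀ b : ℕ, (∀ i, m i = b ∨ m i = b + 1) →
          ((∑ i, (m i : ℝ)) + n / 2) / √(n : ℝ) + ε ≤ d + 3 / 2 →
          ∃ F : MvPolynomial (Fin 3) ℂ, F ≠ 0 ∧ F.IsHomogeneous d ∧
            ∀ i, MultGE (P i) F (m i)) := by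
  obtain ⟨t1, h1⟩ := TH603.Cut.degree_bound hD hε
  obtain ⟨t2, -, h2⟩ := TH603.Cut.expDim_cut hD hε
  refine ⟨max (max t1 t2) (⌈1 / ε⌉₊ + 1), fun t ht n hn => ?_⟩
  have ht1 : t1 ≤ t := ((le_max_left _ _).trans (le_max_left _ _)).trans ht
  have ht2 : t2 ≤ t := ((le_max_right _ _).trans (le_max_left _ _)).trans ht
  have ht3 : ⌈1 / ε⌉₊ + 1 ≤ t := (le_max_right _ _).trans ht
  have htn : t ^ 2 ≤ n := by
    rw [hn]
    calc t ^ 2 = 1 * t ^ 2 := (one_mul _).symm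
      _ ≤ D * t ^ 2 := Nat.mul_le_mul_right _ hD
  have hsq : 1 / ε ≤ √(n : ℝ) := by
    refine (Nat.le_ceil _).trans ?_
    apply Real.le_sqrt_of_sq_le
    have h3 : ⌈1 / ε⌉₊ ^ 2 ≤ n := (Nat.pow_le_pow_left (by omega) 2).trans htn
    exact_mod_cast h3
  have hn4 : 1 ≤ 4 * (ε * √(n : ℝ)) := by
    have h3 := mul_le_mul_of_nonneg_left hsq hε.le
    have e : ε * (1 / ε) = 1 := by field_simp
    linarith
  obtain ⟨G, hG, hG'⟩ := TH603.Cut.exists_family (Fin n × Fin 2)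
  refine ⟨G, hG, fun P hP m d => ?_⟩
  have hind := hG' _ hP
  refine ⟨fun hm F hF hFd hFm => ?_, fun b hb hd => ?_⟩
  · exact h1 t ht1 n hn m hm P hind d F hF hFd hFm
  · have h' := h2 t ht2
    rw [← hn] at h'
    obtain ⟨F, hF, hF'⟩ := h' m
    have h3 := hF' P (fun h0 => hF (hind.eq_zero_of_aeval_eq_zero F h0)) d
      (Or.inr (Or.inr ⟨b, fun i => by rcases hb i with h | h <;> omega, ?_⟩))
    · unfold H932R3.ExpDim at h3
      have h4 := cond_small hε hn4 hb hd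
      have h5 : homogeneousSubmodule (Fin 3) ℂ d ⊓
          Submodule.restrictScalars ℂ
            (⨅ i : Fin n, (Ideal.span ({X 0 - C (P i 0) * X 2, X 1 - C (P i 1) * X 2} :
              Set (MvPolynomial (Fin 3) ℂ))) ^ (m i)) ≠ ⊥ := by
        intro h0
        rw [h0, finrank_bot] at h3
        omega
      obtain ⟨Q, hQ, hQ0⟩ := Submodule.exists_mem_ne_zero_of_ne_bot h5
      refine ⟨Q, hQ0, hQ.1, fun i => ?_⟩
      have h6 : Q ∈ (⨅ i : Fin n, (Ideal.span ({X 0 - C (P i 0) * X 2, X 1 - C (P i 1) * X 2} :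
              Set (MvPolynomial (Fin 3) ℂ))) ^ (m i)) := hQ.2
      rw [Ideal.mem_iInf] at h6
      exact h6 i
    · have e : (∑ i, (max (m i) b : ℕ) : ℝ) = ∑ i, (m i : ℝ) :=
        Finset.sum_congr rfl fun i _ => by
          have : max (m i) b = m i := by rcases hb i with h | h <;> omega
          rw [this]
      push_cast at e ⊢
      rw [e]
      exact hd

end Pool.Agent.Results.MP_bb3511_ag.BeyondNagata
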