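import Mathlib
import Pool.Agent.TH545.Nag.Coll

set_option autoImplicit false

/-!
# Vanishing for general monomial collisions in every square class

For every `D` that is not a perfect square there is `t0 D` (with `t0 2 = 8`) such that for all
`t ≥ t0 D`, `r = D t ^ 2`, every algebraically closed field `k` of characteristic zero and every
`m ≥ 1`, the subscheme of the plane with ideal
`(y - (a₀ + a₁ x + ... + a_(r-1) x ^ (r-1)), (x - c) ^ r) ^ m` lies, for all `(c, a)` outside a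
hypersurface, on no curve of degree `d ≤ m √r`.
-/

namespace Pool.Agent.Results.MP_cea741_ag.ExactAllClasses

open Polynomial

universe u

theorem sqrt_ne {D t m : ℕ} (hD : ¬ IsSquare D) (ht : 0 < t) (hm : 0 < m) (a : ℕ) :
    (a : ℝ) ≠ (m : ℝ) * Real.sqrt ((D * t ^ 2 : ℕ) : ℝ) := by
  intro h
  have h1 : ((m : ℝ) * Real.sqrt ((D * t ^ 2 : ℕ) : ℝ)) ^ 2 = (a : ℝ) ^ 2 := by rw [h]
  rw [mul_pow, Real.sq_sqrt (Nat.cast_nonneg _)] at h1
  have h2 : m ^ 2 * (D * t ^ 2) = a ^ 2 := by exact_mod_cast h1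
  have h3 : D * (m * t) ^ 2 = a ^ 2 := by rw [← h2]; ring
  apply hD
  have hmt : 0 < m * t := Nat.mul_pos hm ht
  have h4 : (m * t) ^ 2 ∣ a ^ 2 := ⟨D, by rw [← h3]; ring⟩
  obtain ⟨c, hc⟩ := (Nat.pow_dvd_pow_iff (by norm_num)).1 h4
  refine ⟨c, ?_⟩
  have h5 : D * (m * t) ^ 2 = (c * c) * (m * t) ^ 2 := by rw [h3, hc]; ring
  exact Nat.eq_of_mul_eq_mul_right (by positivity) h5

theorem result : ∃ t0 : ℕ → ℕ, t0 2 = 8 ∧ ∀ D : ℕ, ¬ IsSquare D → ∀ t : ℕ, t0 D ≤ t →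
    ∀ (k : Type u) [Field k] [IsAlgClosed k] [CharZero k] (m : ℕ), 0 < m →
      ∃ F : MvPolynomial (Fin (D * t ^ 2 + 1)) k, F ≠ 0 ∧
        ∀ (c : k) (a : Fin (D * t ^ 2) → k),
          MvPolynomial.eval (Fin.cons c a : Fin (D * t ^ 2 + 1) → k) F ≠ 0 →
          ∀ d : ℕ, (d : ℝ) ≤ m * Real.sqrt ((D * t ^ 2 : ℕ) : ℝ) →
            ∀ P : MvPolynomial (Fin 3) k, P.IsHomogeneous d →
              (MvPolynomial.aeval ![C X, X, 1] : MvPolynomial (Fin 3) k →ₐ[k] k[X][X]) P ∈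
                (Ideal.span {X - C (∑ j : Fin (D * t ^ 2), C (a j) * X ^ (j : ℕ)),
                  C ((X - C c) ^ (D * t ^ 2))} : Ideal k[X][X]) ^ m →
              P = 0 := by
  obtain ⟨t0, h8, h0⟩ := Pool.Agent.TH545.Nag.exists_t0
  refine ⟨t0, h8, fun D hD t ht k _ _ _ m hm => ?_⟩
  have hD1 : 1 ≤ D := by
    by_contra hcon
    have : D = 0 := by omega
    subst this
    exact hD ⟨0, rfl⟩
  obtain ⟨h1, h2⟩ := h0 D hD1
  have ht0 : 0 < t := by omega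
  have hr : 1 ≤ D * t ^ 2 := Nat.succ_le_of_lt (by positivity)
  obtain ⟨F, hF, hF'⟩ := Pool.Agent.TH545.Nag.collision_mv (k := k) (r := D * t ^ 2) (m := m) hr hm
    (by push_cast; exact h2 t ht)
  exact ⟨F, hF, fun c a hc d hd P hP hP' =>
    hF' c a hc d (lt_of_le_of_ne hd (sqrt_ne hD ht0 hm d)) P hP hP'⟩

end Pool.Agent.Results.MP_cea741_ag.ExactAllClasses
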