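import Mathlib
import Pool.Agent.TH545.Nag.Wald
import Pool.Agent.TH545.Nag.Coll

set_option autoImplicit false

/-!
# Waldschmidt constants of generic points in the plane: exact values in every square class

For every `D ≥ 1` there is `t0 D` (with `t0 2 = 8`) such that for all `t ≥ t0 D` and `r = D t²`, the Waldschmidt
constant of `r` generic points of the plane over any algebraically closed field of
characteristic zero is exactly `√r`, and `m √r ≤ a(S, m)` for all `m`.
-/

namespace Pool.Agent.Results.MP_d0dfcd_ag.ExactAllClasses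

open MvPolynomial Filter Topology

universe u

/-- The form `F` vanishes to order at least `m` at the point `(1 : p 0 : p 1)`: it lies in the
`m`-th power of the ideal of the point. -/
def VanishesAt {k : Type u} [Field k] (p : Fin 2 → k) (m : ℕ) (F : MvPolynomial (Fin 3) k) :
    Prop :=
  F ∈ (Ideal.span {X 1 - C (p 0) * X 0, X 2 - C (p 1) * X 0} :
    Ideal (MvPolynomial (Fin 3) k)) ^ m

/-- The least degree `a(S, m)` of a nonzero form vanishing to order at least `m` at every point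
`(1 : P i 0 : P i 1)`. -/
noncomputable def leastDegree {k : Type u} [Field k] {r : ℕ} (P : Fin r → Fin 2 → k) (m : ℕ) : ℕ :=
  sInf {d | ∃ F : MvPolynomial (Fin 3) k, F.IsHomogeneous d ∧ F ≠ 0 ∧ ∀ i, VanishesAt (P i) m F}

/-- The points `(1 : P i 0 : P i 1)` are generic: their affine coordinates are algebraically
independent over the prime field `⊥` of `k`. -/
def Generic {k : Type u} [Field k] {r : ℕ} (P : Fin r → Fin 2 → k) : Prop :=
  AlgebraicIndependent (⊥ : Subfield k) (fun ij : Fin r × Fin 2 => P ij.1 ij.2)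

theorem result : ∃ t0 : ℕ → ℕ, t0 2 = 8 ∧ ∀ D : ℕ, 1 ≤ D → ∀ t : ℕ, t0 D ≤ t →
      ∀ (k : Type u) [Field k] [IsAlgClosed k] [CharZero k]
        (P : Fin (D * t ^ 2) → Fin 2 → k), Generic P →
        Tendsto (fun m : ℕ => (leastDegree P m : ℝ) / m) atTop
          (𝓝 (Real.sqrt ((D * t ^ 2 : ℕ) : ℝ))) ∧
        ∀ m : ℕ, (m : ℝ) * Real.sqrt ((D * t ^ 2 : ℕ) : ℝ) ≤ leastDegree P m := by
  obtain ⟨t0, h8, h0⟩ := Pool.Agent.TH545.Nag.exists_t0
  refine ⟨t0, h8, fun D hD t ht k _ _ _ P hP => ?_⟩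
  obtain ⟨h1, h2⟩ := h0 D hD
  have ht0 : 0 < t := by omega
  have hr : 1 ≤ D * t ^ 2 := Nat.succ_le_of_lt (by positivity)
  have hlow : ∀ m : ℕ, (m : ℝ) * Real.sqrt ((D * t ^ 2 : ℕ) : ℝ) ≤
      Pool.Agent.H519R3.AC.alp P m :=
    fun m => Pool.Agent.TH545.Nag.alp_ge hr (by push_cast; exact h2 t ht) k P hP m
  refine ⟨?_, hlow⟩
  obtain ⟨e, he1, he2, he3⟩ := Pool.Agent.H519R3.AC.exists_wald P
    (c := Real.sqrt ((D * t ^ 2 : ℕ) : ℝ)) (fun m _ => by rw [mul_comm]; exact hlow m)
  have : e = Real.sqrt ((D * t ^ 2 : ℕ) : ℝ) := le_antisymm he3 he2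
  rw [← this]
  exact he1

end Pool.Agent.Results.MP_d0dfcd_ag.ExactAllClasses
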