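import Pool.Agent.TH885.NW.Final
import Pool.Agent.TH641.NW.End2
import Pool.Agent.TH387.SH.Tr
import Pool.Agent.TH641.EN.Fin
import Pool.Agent.TH864.SX.Final13
import Pool.Agent.TH469.SX.TwentyOne

set_option autoImplicit false

/-!
# General fat points of arbitrary multiplicities in the plane, every number of points

For every `ε > 0` there is `N0` such that for every number `k ≥ 10` of general points of the
complex projective plane and all multiplicities `w i` the fat point scheme imposes maximal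
conditions in every degree `d` with
* `√k d < ∑ w i`, or
* `w i ≤ b + 1` for all `i` and `k + ∑ max (w i) b < √k (d + 3)`, for some `b`, or
* all `w i` are equal and `k ≥ 37` or `k = 13` or `k = 21` (every degree `d`), or
* all `w i = m ≥ 1` and `2 d + 3` is smaller than `√k (2 m + 1)` by more than
  `min (√k - 3) (2 / 3 + 9 / (4 √k))`, or larger by more than `min (√k - 3) (2 / 3 + 1 / (4 √k))`, or
* `k ≥ N0`, `k (k / 2 + 2) ≤ ∑ w i` and `d + 3 / 2 + ε ≤ (∑ w i + k / 2) / √k`, or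
* `k ≥ N0`, `w i ≤ b + 1` for all `i` and `(∑ max (w i) b + k / 2) / √k + ε ≤ d + 3 / 2`, or
* `k ≥ N0`, all `w i` are in `{m, m + 1}` for some `m ≥ 1` and
  `|2 d + 3 - √k - 2 (∑ w i) / √k| ≥ ε`.
-/

namespace Pool.Agent.Results.MP_1dafdd_ag.PlaneAllNumbers

/-- `V_d(Γ)`: the forms of degree `d` in three variables over `ℂ` with multiplicity at least `w i`
at the point `(P i 0 : P i 1 : 1)` for every `i`. -/
noncomputable def forms {k : ℕ} (P : Fin k → Fin 2 → ℂ) (d : ℕ) (w : Fin k → ℕ) :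
    Submodule ℂ (MvPolynomial (Fin 3) ℂ) :=
  MvPolynomial.homogeneousSubmodule (Fin 3) ℂ d ⊓
    Submodule.restrictScalars ℂ
      (⨅ i : Fin k,
        (Ideal.span
          ({MvPolynomial.X 0 - MvPolynomial.C (P i 0) * MvPolynomial.X 2,
            MvPolynomial.X 1 - MvPolynomial.C (P i 1) * MvPolynomial.X 2} :
            Set (MvPolynomial (Fin 3) ℂ))) ^ (w i))

/-- The fat point scheme with multiplicities `w` at the points `P` imposes maximal conditions in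
degree `d`. -/
def ImposesMaximalConditions {k : ℕ} (P : Fin k → Fin 2 → ℂ) (d : ℕ) (w : Fin k → ℕ) : Prop :=
  (Module.finrank ℂ ↥(forms P d w) : ℤ) =
    max 0 (((d + 2).choose 2 : ℤ) - ∑ i, ((w i + 1).choose 2 : ℤ))

theorem imposes_of {k : ℕ} {P : Fin k → Fin 2 → ℂ} {d : ℕ} {w : Fin k → ℕ}
    (h : H932R3.ExpDim ℂ w P d) : ImposesMaximalConditions P d w := by
  have h1 : Module.finrank ℂ ↥(forms P d w) =
      Nat.choose (d + 2) 2 - ∑ i, Nat.choose (w i + 1) 2 := h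
  have h2 : ∑ i, ((w i + 1).choose 2 : ℤ) = ((∑ i, Nat.choose (w i + 1) 2 : ℕ) : ℤ) := by
    push_cast
    rfl
  unfold ImposesMaximalConditions
  rw [h1, h2]
  omega

/-- `P` holds at the points outside a hypersurface, for the degrees with `Q`. -/
def Gen {k : ℕ} (w : Fin k → ℕ) (Q : ℕ → Prop) : Prop :=
  ∃ F : MvPolynomial (Fin k × Fin 2) ℂ, F ≠ 0 ∧ ∀ P : Fin k → Fin 2 → ℂ,
    MvPolynomial.eval (fun ij : Fin k × Fin 2 => P ij.1 ij.2) F ≠ 0 →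
      ∀ d : ℕ, Q d → H932R3.ExpDim ℂ w P d

theorem Gen.of_rat {k : ℕ} {w : Fin k → ℕ} {Q : ℕ → Prop}
    (h : ∃ F : MvPolynomial (Fin k × Fin 2) ℚ, F ≠ 0 ∧ ∀ (P : Fin k → Fin 2 → ℂ),
      MvPolynomial.aeval (fun ij : Fin k × Fin 2 => P ij.1 ij.2) F ≠ 0 →
        ∀ d : ℕ, Q d → H932R3.ExpDim ℂ w P d) : Gen w Q := by
  obtain ⟨F, hF, hF'⟩ := h
  refine ⟨F.map (algebraMap ℚ ℂ), H932R3.map_ne_zero_of hF, fun P hP d hd => ?_⟩
  rw [MvPolynomial.eval_map] at hP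
  exact hF' P hP d hd

theorem Gen.or {k : ℕ} {w : Fin k → ℕ} {Q Q' : ℕ → Prop} (h : Gen w Q) (h' : Gen w Q') :
    Gen w (fun d => Q d ∨ Q' d) := by
  obtain ⟨F1, hF1, h1⟩ := h
  obtain ⟨F2, hF2, h2⟩ := h'
  refine ⟨F1 * F2, mul_ne_zero hF1 hF2, fun P hP d hd => ?_⟩
  rw [map_mul] at hP
  rcases hd with hd | hd
  · exact h1 P (left_ne_zero_of_mul hP) d hd
  · exact h2 P (right_ne_zero_of_mul hP) d hd

theorem Gen.and {k : ℕ} {w : Fin k → ℕ} {Q : ℕ → Prop} {A : Prop} (h : A → Gen w Q) :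
    Gen w (fun d => A ∧ Q d) := by
  by_cases hA : A
  · obtain ⟨F, hF, hF'⟩ := h hA
    exact ⟨F, hF, fun P hP d hd => hF' P hP d hd.2⟩
  · exact ⟨1, one_ne_zero, fun P _ d hd => absurd hd.1 hA⟩

theorem Gen.mono {k : ℕ} {w : Fin k → ℕ} {Q Q' : ℕ → Prop} (h : Gen w Q) (hQ : ∀ d, Q' d → Q d) :
    Gen w Q' := by
  obtain ⟨F, hF, hF'⟩ := h
  exact ⟨F, hF, fun P hP d hd => hF' P hP d (hQ d hd)⟩

theorem uniform {k m : ℕ} (hm : 1 ≤ m) :
    Gen (fun _ : Fin k => m) (fun _ => 37 ≤ k ∨ k = 13 ∨ k = 21) := by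
  by_cases h : 37 ≤ k ∨ k = 13 ∨ k = 21
  · rcases h with h | rfl | rfl
    · obtain ⟨F, hF, hF'⟩ := Pool.Agent.TH641.EN.exp37 h hm (L := ℂ)
      exact Gen.of_rat ⟨F, hF, fun P hP d _ => hF' P hP d⟩
    · obtain ⟨F, hF, hF'⟩ := Pool.Agent.TH864.SX.uniform13 m
      exact Gen.of_rat ⟨F, hF, fun P hP d _ => hF' P hP d⟩
    · obtain ⟨F, hF, hF'⟩ := Pool.Agent.TH469.SX.twentyone m
      exact Gen.of_rat ⟨F, hF, fun P hP d _ => hF' P hP d⟩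
  · exact ⟨1, one_ne_zero, fun P _ d hd => absurd hd h⟩

theorem result (ε : ℝ) (hε : 0 < ε) : ∃ N0 : ℕ, ∀ k : ℕ, 10 ≤ k → ∀ w : Fin k → ℕ,
    ∃ F : MvPolynomial (Fin k × Fin 2) ℂ, F ≠ 0 ∧
      ∀ P : Fin k → Fin 2 → ℂ,
        MvPolynomial.eval (fun ij : Fin k × Fin 2 => P ij.1 ij.2) F ≠ 0 →
        ∀ d : ℕ,
          (√(k : ℝ) * d < ∑ i, (w i : ℝ) ∨
            (∃ b : ℕ, (∀ i, w i ≤ b + 1) ∧
              (k : ℝ) + ((∑ i, max (w i) b : ℕ) : ℝ) < √(k : ℝ) * (d + 3)) ∨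
            (∃ m : ℕ, 1 ≤ m ∧ (∀ i, w i = m) ∧
              ((37 ≤ k ∨ k = 13 ∨ k = 21) ∨
                min (√(k : ℝ) - 3) (2 / 3 + 9 / (4 * √(k : ℝ))) <
                  √(k : ℝ) * (2 * m + 1) - (2 * d + 3) ∨
                min (√(k : ℝ) - 3) (2 / 3 + 1 / (4 * √(k : ℝ))) <
                  (2 * d + 3) - √(k : ℝ) * (2 * m + 1))) ∨
            (N0 ≤ k ∧
              (((k : ℝ) * (k / 2 + 2) ≤ ∑ i, (w i : ℝ) ∧
                  (d : ℝ) + 3 / 2 + ε ≤ ((∑ i, (w i : ℝ)) + k / 2) / √(k : ℝ)) ∨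
                (∃ b : ℕ, (∀ i, w i ≤ b + 1) ∧
                  ((∑ i, (max (w i) b : ℕ) : ℝ) + k / 2) / √(k : ℝ) + ε ≤ (d : ℝ) + 3 / 2) ∨
                ((∃ m : ℕ, 1 ≤ m ∧ ∀ i, w i = m ∨ w i = m + 1) ∧
                  ε ≤ |2 * (d : ℝ) + 3 - √(k : ℝ) - 2 * (∑ i, (w i : ℝ)) / √(k : ℝ)|)))) →
          ImposesMaximalConditions P d w := by
  obtain ⟨N1, -, h1⟩ := Pool.Agent.TH885.NW.all_cut hε
  obtain ⟨N2, h2⟩ := Pool.Agent.TH885.NW.all_near hε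
  refine ⟨max N1 N2, fun k hk w => ?_⟩
  have g1 : Gen w (fun d => √(k : ℝ) * d < ∑ i, (w i : ℝ) ∨
      ∃ b : ℕ, (∀ i, w i ≤ b + 1) ∧
        (k : ℝ) + ((∑ i, max (w i) b : ℕ) : ℝ) < √(k : ℝ) * (d + 3)) := by
    obtain ⟨F, hF, hF'⟩ := Pool.Agent.TH387.SH.expDim_all hk w
    exact Gen.of_rat ⟨F, hF, fun P hP d hd => hF' P hP d hd⟩
  have g2 : Gen w (fun d => ∃ m : ℕ, 1 ≤ m ∧ (∀ i, w i = m) ∧
              ((37 ≤ k ∨ k = 13 ∨ k = 21) ∨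
                min (√(k : ℝ) - 3) (2 / 3 + 9 / (4 * √(k : ℝ))) <
                  √(k : ℝ) * (2 * m + 1) - (2 * d + 3) ∨
                min (√(k : ℝ) - 3) (2 / 3 + 1 / (4 * √(k : ℝ))) <
                  (2 * d + 3) - √(k : ℝ) * (2 * m + 1))) := by
    by_cases hm : ∃ m : ℕ, 1 ≤ m ∧ ∀ i, w i = m
    · obtain ⟨m, hm1, hm2⟩ := hm
      have hw : w = fun _ => m := funext hm2
      subst hw
      have g := Gen.of_rat (Pool.Agent.TH641.NW.expDim_uni_win2 (L := ℂ) hk hm1)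
      refine ((uniform hm1).or g).mono fun d hd => ?_
      obtain ⟨m', -, hm', hd⟩ := hd
      have e : m = m' := hm' ⟨0, by omega⟩
      subst e
      exact hd
    · exact ⟨1, one_ne_zero, fun P _ d hd => absurd (hd.imp fun m h => ⟨h.1, h.2.1⟩) hm⟩
  have g3 : Gen w (fun d => max N1 N2 ≤ k ∧
              (((k : ℝ) * (k / 2 + 2) ≤ ∑ i, (w i : ℝ) ∧
                  (d : ℝ) + 3 / 2 + ε ≤ ((∑ i, (w i : ℝ)) + k / 2) / √(k : ℝ)) ∨
                (∃ b : ℕ, (∀ i, w i ≤ b + 1) ∧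
                  ((∑ i, (max (w i) b : ℕ) : ℝ) + k / 2) / √(k : ℝ) + ε ≤ (d : ℝ) + 3 / 2) ∨
                ((∃ m : ℕ, 1 ≤ m ∧ ∀ i, w i = m ∨ w i = m + 1) ∧
                  ε ≤ |2 * (d : ℝ) + 3 - √(k : ℝ) - 2 * (∑ i, (w i : ℝ)) / √(k : ℝ)|))) := by
    refine Gen.and fun hN => ?_
    have a1 : Gen w (fun d => √(k : ℝ) * d < ∑ i, (w i : ℝ) ∨
        ((k : ℝ) * ((k : ℝ) / 2 + 2) ≤ ∑ i, (w i : ℝ) ∧
          (d : ℝ) + 3 / 2 + ε ≤ ((∑ i, (w i : ℝ)) + (k : ℝ) / 2) / √(k : ℝ)) ∨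
        ∃ b : ℕ, (∀ i, w i ≤ b + 1) ∧
          ((∑ i, (max (w i) b : ℕ) : ℝ) + (k : ℝ) / 2) / √(k : ℝ) + ε ≤ (d : ℝ) + 3 / 2) := by
      obtain ⟨F, hF, hF'⟩ := h1 k ((le_max_left _ _).trans hN) w
      exact Gen.of_rat ⟨F, hF, fun P hP d hd => hF' P hP d hd⟩
    have a2 : Gen w (fun d => (∃ m : ℕ, 1 ≤ m ∧ ∀ i, w i = m ∨ w i = m + 1) ∧
        ε ≤ |2 * (d : ℝ) + 3 - √(k : ℝ) - 2 * (∑ i, (w i : ℝ)) / √(k : ℝ)|) := by
      refine Gen.and fun hm => ?_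
      obtain ⟨m, hm1, hm2⟩ := hm
      exact Gen.of_rat (h2 k ((le_max_right _ _).trans hN) m hm1 w hm2 (L := ℂ))
    refine (a1.or a2).mono fun d hd => ?_
    rcases hd with hd | hd | hd
    · exact Or.inl (Or.inr (Or.inl hd))
    · exact Or.inl (Or.inr (Or.inr hd))
    · exact Or.inr hd
  obtain ⟨F, hF, hF'⟩ := (g1.or g2).or g3
  refine ⟨F, hF, fun P hP d hd => imposes_of (hF' P hP d ?_)⟩
  rcases hd with hd | hd | hd | hd
  · exact Or.inl (Or.inl (Or.inl hd))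
  · exact Or.inl (Or.inl (Or.inr hd))
  · exact Or.inl (Or.inr hd)
  · exact Or.inr hd

end Pool.Agent.Results.MP_1dafdd_ag.PlaneAllNumbers
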