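import Pool.Agent.TH603.Cut.Main

set_option autoImplicit false

/-!
# `D t ^ 2` general fat points of arbitrary multiplicities in the plane

For every `D ≥ 1` and every `ε > 0` there is `t0` such that for `k = D t ^ 2`, `t ≥ t0`, general
points of the complex projective plane and all multiplicities `w i` the fat point scheme imposes
maximal conditions in every degree `d` with
* `√k d < ∑ w i`, or
* `k (k / 2 + 2) ≤ ∑ w i` and `d + 3 / 2 + ε ≤ (∑ w i + k / 2) / √k`, or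
* `w i ≤ b + 1` for all `i` and `(∑ max (w i) b + k / 2) / √k + ε ≤ d + 3 / 2`, for some `b`;
and if the `w i` are in `{m, m + 1}` for some `m ≥ 1`, in every degree `d` with
`|2 d + 3 - √k - 2 (∑ w i) / √k| ≥ ε`.
-/

namespace Pool.Agent.Results.MP_1dafdd_ag.PlaneSharpWindow

/-- `V_d(Γ)`: the forms of degree `d` in three variables over `ℂ` with multiplicity at least `w i`
at the point `(P i 0 : P i 1 : 1)` for every `i`. -/
noncomputable def forms {k : ℕ} (P : Fin k → Fin 2 → ℂ) (d : ℕ) (w : Fin k → ℕ) :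
    Submodule ℂ (MvPolynomial (Fin 3) ℂ) :=
  MvPolynomial.homogeneousSubmodule (Fin 3) ℂ d ⊓
    Submodule.restrictScalars ℂ
      (⨅ i : Fin k,
        (Ideal.span
          ({MvPolynomial.X 0 - MvPolynomial.C (P i 0) * MvPolynomial.X 2,
            MvPolynomial.X 1 - MvPolynomial.C (P i 1) * MvPolynomial.X 2} :
            Set (MvPolynomial (Fin 3) ℂ))) ^ (w i))

/-- The fat point scheme with multiplicities `w` at the points `P` imposes maximal conditions in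
degree `d`. -/
def ImposesMaximalConditions {k : ℕ} (P : Fin k → Fin 2 → ℂ) (d : ℕ) (w : Fin k → ℕ) : Prop :=
  (Module.finrank ℂ ↥(forms P d w) : ℤ) =
    max 0 (((d + 2).choose 2 : ℤ) - ∑ i, ((w i + 1).choose 2 : ℤ))

theorem imposes_of {k : ℕ} {P : Fin k → Fin 2 → ℂ} {d : ℕ} {w : Fin k → ℕ}
    (h : H932R3.ExpDim ℂ w P d) : ImposesMaximalConditions P d w := by
  have h1 : Module.finrank ℂ ↥(forms P d w) =
      Nat.choose (d + 2) 2 - ∑ i, Nat.choose (w i + 1) 2 := h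
  have h2 : ∑ i, ((w i + 1).choose 2 : ℤ) = ((∑ i, Nat.choose (w i + 1) 2 : ℕ) : ℤ) := by
    push_cast
    rfl
  unfold ImposesMaximalConditions
  rw [h1, h2]
  omega

theorem result (D : ℕ) (hD : 1 ≤ D) (ε : ℝ) (hε : 0 < ε) : ∃ t0 : ℕ, ∀ t : ℕ, t0 ≤ t →
    ∀ k : ℕ, k = D * t ^ 2 → ∀ w : Fin k → ℕ,
    ∃ F : MvPolynomial (Fin k × Fin 2) ℂ, F ≠ 0 ∧
      ∀ P : Fin k → Fin 2 → ℂ,
        MvPolynomial.eval (fun ij : Fin k × Fin 2 => P ij.1 ij.2) F ≠ 0 →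
        ∀ d : ℕ, (√(k : ℝ) * d < ∑ i, (w i : ℝ) ∨
            ((k : ℝ) * (k / 2 + 2) ≤ ∑ i, (w i : ℝ) ∧
              (d : ℝ) + 3 / 2 + ε ≤ ((∑ i, (w i : ℝ)) + k / 2) / √(k : ℝ)) ∨
            (∃ b : ℕ, (∀ i, w i ≤ b + 1) ∧
              ((∑ i, (max (w i) b : ℕ) : ℝ) + k / 2) / √(k : ℝ) + ε ≤ (d : ℝ) + 3 / 2) ∨
            ((∃ m : ℕ, 1 ≤ m ∧ ∀ i, w i = m ∨ w i = m + 1) ∧
              ε ≤ |2 * (d : ℝ) + 3 - √(k : ℝ) - 2 * (∑ i, (w i : ℝ)) / √(k : ℝ)|)) →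
          ImposesMaximalConditions P d w := by
  obtain ⟨t1, -, h⟩ := TH603.Cut.expDim_cut hD hε
  obtain ⟨t2, h'⟩ := TH603.Cut.expDim_near hD hε
  refine ⟨max t1 t2, fun t ht k hk w => ?_⟩
  have ht1 : t1 ≤ t := (le_max_left _ _).trans ht
  have ht2 : t2 ≤ t := (le_max_right _ _).trans ht
  have g1 : ∃ F : MvPolynomial (Fin k × Fin 2) ℂ, F ≠ 0 ∧ ∀ P : Fin k → Fin 2 → ℂ,
      MvPolynomial.eval (fun ij : Fin k × Fin 2 => P ij.1 ij.2) F ≠ 0 →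
      ∀ d : ℕ, (√(k : ℝ) * d < ∑ i, (w i : ℝ) ∨
            ((k : ℝ) * (k / 2 + 2) ≤ ∑ i, (w i : ℝ) ∧
              (d : ℝ) + 3 / 2 + ε ≤ ((∑ i, (w i : ℝ)) + k / 2) / √(k : ℝ)) ∨
            (∃ b : ℕ, (∀ i, w i ≤ b + 1) ∧
              ((∑ i, (max (w i) b : ℕ) : ℝ) + k / 2) / √(k : ℝ) + ε ≤ (d : ℝ) + 3 / 2)) →
        H932R3.ExpDim ℂ w P d := by
    subst hk
    obtain ⟨F, hF, hF'⟩ := h t ht1 w
    refine ⟨F.map (algebraMap ℚ ℂ), H932R3.map_ne_zero_of hF, fun P hP d hd => ?_⟩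
    rw [MvPolynomial.eval_map] at hP
    exact hF' P hP d hd
  have g2 : ∃ F : MvPolynomial (Fin k × Fin 2) ℂ, F ≠ 0 ∧ ∀ P : Fin k → Fin 2 → ℂ,
      MvPolynomial.eval (fun ij : Fin k × Fin 2 => P ij.1 ij.2) F ≠ 0 →
      ∀ d : ℕ, ((∃ m : ℕ, 1 ≤ m ∧ ∀ i, w i = m ∨ w i = m + 1) ∧
              ε ≤ |2 * (d : ℝ) + 3 - √(k : ℝ) - 2 * (∑ i, (w i : ℝ)) / √(k : ℝ)|) →
        H932R3.ExpDim ℂ w P d := by
    by_cases hm : ∃ m : ℕ, 1 ≤ m ∧ ∀ i, w i = m ∨ w i = m + 1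
    · obtain ⟨m, hm1, hm2⟩ := hm
      obtain ⟨F, hF, hF'⟩ := h' t ht2 k hk m hm1 w hm2 (L := ℂ)
      refine ⟨F.map (algebraMap ℚ ℂ), H932R3.map_ne_zero_of hF, fun P hP d hd => ?_⟩
      rw [MvPolynomial.eval_map] at hP
      exact hF' P hP d hd.2
    · exact ⟨1, one_ne_zero, fun P _ d hd => absurd hd.1 hm⟩
  obtain ⟨F1, hF1, h1⟩ := g1
  obtain ⟨F2, hF2, h2⟩ := g2
  refine ⟨F1 * F2, mul_ne_zero hF1 hF2, fun P hP d hd => imposes_of ?_⟩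
  rw [map_mul] at hP
  rcases hd with hd | hd | hd | hd
  · exact h1 P (left_ne_zero_of_mul hP) d (Or.inl hd)
  · exact h1 P (left_ne_zero_of_mul hP) d (Or.inr (Or.inl hd))
  · exact h1 P (left_ne_zero_of_mul hP) d (Or.inr (Or.inr hd))
  · exact h2 P (right_ne_zero_of_mul hP) d hd

end Pool.Agent.Results.MP_1dafdd_ag.PlaneSharpWindow
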