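import Mathlib
import Pool.Agent.Results.MP_309968_ag.BoundaryRays
import Pool.Agent.TH545.Nag.Nf
import Pool.Agent.TH545.Nag.Coll

set_option autoImplicit false

/-!
# Irrational nef rays on the boundary of the positive cone

Let `L` be the list of the sides of the squares in the Euclidean subdivision of the rectangle with
sides `A` and `B`. For very general points the class `√(A B) H - ∑ L_j E_{g j}`, of self-intersection
zero, is nef if `A / B` is one of the ratios obtained from the squares and from the numbers `D t ^ 2`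
(`D ≥ 1`, `t ≥ t0 D`) by the operations `τ ↦ ρ ^ 2 / τ` and `τ ↦ (k τ + y) ^ 2 / τ`. For
`A = D t ^ 2`, `B = 1` this is the class `√n H - (E_1 + ... + E_n)`, `n = D t ^ 2`. The classes can
be composed.
-/

namespace Pool.Agent.Results.MP_309968_ag.IrrationalRays

open Pool.Agent.H932R3 Pool.Agent.H350R3 Pool.Agent.H350R3.GR
open Pool.Agent.Results.MP_309968_ag.BoundaryRays (MultGE curveClasses curvCone cone_le
  noForm_ext degree_pos mult_pos)
open Pool.Agent.TH181.NagM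

/-- The ratios obtained from the squares `s ^ 2` and from the numbers `D t ^ 2` with `D ≥ 1` and
`t ≥ t0 D` by the operations `τ ↦ ρ ^ 2 / τ` (`ρ ≥ τ` an integer) and `τ ↦ (k τ + y) ^ 2 / τ`
(`k ≥ 1` and `y` coprime integers). -/
inductive Ratio (t0 : ℕ → ℕ) : ℝ → Prop
  | square (s : ℕ) : 1 ≤ s → Ratio t0 ((s : ℝ) ^ 2)
  | nagata (D t : ℕ) : 1 ≤ D → t0 D ≤ t → Ratio t0 ((D : ℝ) * (t : ℝ) ^ 2)
  | invert (τ : ℝ) (ρ : ℕ) : Ratio t0 τ → τ ≤ ρ → Ratio t0 ((ρ : ℝ) ^ 2 / τ)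
  | move (τ : ℝ) (k y : ℕ) : Ratio t0 τ → 1 ≤ k → Nat.Coprime k y →
      Ratio t0 (((k : ℝ) * τ + y) ^ 2 / τ)

/-- `Sharp t0 L c`: the class `c H - ∑ L_j E_j` is obtained from the classes
`√(A B) H - ∑ m_j E_j`, where `m` are the sides of the squares in the Euclidean subdivision of the
rectangle with sides `A` and `B` and `A / B` lies in `Ratio t0`, by scaling and by replacing a
coefficient `w` by the coefficients of a class `w H - ∑ L'_j E_j` with `Sharp t0 L' w`. -/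
inductive Sharp (t0 : ℕ → ℕ) : List ℝ → ℝ → Prop
  | euclid (A B : ℕ) (L : List ℕ) : 0 < A → 0 < B → Ratio t0 ((A : ℝ) / B) → Mult A B L →
      Sharp t0 (L.map fun m : ℕ => (m : ℝ)) (Real.sqrt (A * B))
  | scale (a c : ℝ) (L : List ℝ) : 0 < a → Sharp t0 L c →
      Sharp t0 (L.map fun t => a * t) (a * c)
  | glue (c w : ℝ) (L₁ L₂ L' : List ℝ) : Sharp t0 (L₁ ++ [w] ++ L₂) c → Sharp t0 L' w →
      Sharp t0 (L₁ ++ L' ++ L₂) c

theorem Ratio.reach {t0 : ℕ → ℕ} (h0 : ∀ D : ℕ, 1 ≤ D → 1 ≤ t0 D ∧ ∀ t : ℕ, t0 D ≤ t →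
    Mv 0 1 0 ((D : ℝ) * (t : ℝ) ^ 2)) {τ : ℝ} (h : Ratio t0 τ) : 0 < τ ∧ Mv 0 1 0 τ := by
  induction h with
  | square s hs =>
    have hs' : (1 : ℝ) ≤ s := by exact_mod_cast hs
    refine ⟨by positivity, ?_⟩
    have h1 := Rv.mul (n := 1) s hs (by linarith)
    rwa [mul_one] at h1
  | nagata D t hD ht =>
    obtain ⟨h1, h2⟩ := h0 D hD
    have hD' : (1 : ℝ) ≤ D := by exact_mod_cast hD
    have ht' : (1 : ℝ) ≤ t := by exact_mod_cast h1.trans ht
    exact ⟨by positivity, h2 t ht⟩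
  | invert τ ρ _ hρ ih =>
    obtain ⟨h1, h2⟩ := ih
    have hρ0 : (0 : ℝ) < ρ := lt_of_lt_of_le h1 hρ
    refine ⟨by positivity, h2.trans (Rv.div h1 ρ (by exact_mod_cast hρ0) hρ)⟩
  | move τ k y _ hk hc ih =>
    obtain ⟨h1, h2⟩ := ih
    have hk' : (0 : ℝ) < k := by exact_mod_cast hk
    refine ⟨by positivity, h2.trans (Rv.move h1 k y (Nat.isCoprime_iff_coprime.2 hc) hk)⟩

theorem Sharp.props {t0 : ℕ → ℕ} (h0 : ∀ D : ℕ, 1 ≤ D → 1 ≤ t0 D ∧ ∀ t : ℕ, t0 D ≤ t →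
    Mv 0 1 0 ((D : ℝ) * (t : ℝ) ^ 2)) {L : List ℝ} {c : ℝ} (h : Sharp t0 L c) :
    0 < c ∧ (∀ t ∈ L, 0 < t) ∧ (L.map fun t => t ^ 2).sum = c ^ 2 ∧ NB.Nf ℂ L.get c := by
  induction h with
  | euclid A B L hA hB hR hL =>
    refine ⟨Real.sqrt_pos.2 (by positivity), ?_, ?_,
      Pool.Agent.TH545.Nag.nf_mv hA hB hL (hR.reach h0).2⟩
    · intro t ht'
      obtain ⟨m, hm, rfl⟩ := List.mem_map.1 ht'
      exact_mod_cast mult_pos hL m hm
    · rw [Real.sq_sqrt (by positivity), List.map_map]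
      have h1 := hL.sum_sq
      have h2 : (((L.map fun m => m ^ 2).sum : ℕ) : ℝ) = ((A * B : ℕ) : ℝ) := by rw [h1]
      rw [Nat.cast_list_sum, List.map_map] at h2
      push_cast at h2
      rw [← h2]
      congr 1
      refine List.map_congr_left fun m _ => ?_
      simp
  | scale a c L ha _ ih =>
    obtain ⟨h1, h2, h3, h4⟩ := ih
    refine ⟨mul_pos ha h1, ?_, ?_, nf_list_scale ha h4⟩
    · intro t ht
      obtain ⟨u, hu, rfl⟩ := List.mem_map.1 ht
      exact mul_pos ha (h2 u hu)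
    · rw [List.map_map, mul_pow, ← h3]
      have h5 : ((fun t : ℝ => t ^ 2) ∘ fun t => a * t) = fun t => a ^ 2 * t ^ 2 := by
        funext t
        simp only [Function.comp_apply]
        ring
      rw [h5, List.sum_map_mul_left]
  | glue c w L₁ L₂ L' _ _ ih ih' =>
    obtain ⟨h1, h2, h3, h4⟩ := ih
    obtain ⟨h1', h2', h3', h4'⟩ := ih'
    have hL₁ : ∀ t ∈ L₁, 0 < t := fun t ht => h2 t (by simp [ht])
    have hL₂ : ∀ t ∈ L₂, 0 < t := fun t ht => h2 t (by simp [ht])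
    refine ⟨h1, ?_, ?_, nf_list_glue hL₁ hL₂ h1' h4 h4'⟩
    · intro t ht
      simp only [List.mem_append] at ht
      rcases ht with (ht | ht) | ht
      · exact hL₁ t ht
      · exact h2' t ht
      · exact hL₂ t ht
    · rw [← h3]
      simp only [List.map_append, List.sum_append, h3', List.map_cons, List.map_nil,
        List.sum_cons, List.sum_nil, add_zero]

theorem result :
    ∃ t0 : ℕ → ℕ, t0 2 = 8 ∧
      ∀ n : ℕ, ∃ f : ℕ → MvPolynomial (Fin n × Fin 2) ℂ, (∀ k, f k ≠ 0) ∧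
        ∀ p : Fin n → Fin 2 → ℂ,
          (∀ k, MvPolynomial.eval (fun q : Fin n × Fin 2 => p q.1 q.2) (f k) ≠ 0) →
          ∀ (L : List ℝ) (c : ℝ), Sharp t0 L c →
            (L.map fun t => t ^ 2).sum = c ^ 2 ∧
            ∀ g : Fin L.length → Fin n, Function.Injective g →
              ∀ x ∈ curvCone p, ∑ j, L.get j * x.2 (g j) ≤ c * x.1 := by
  classical
  obtain ⟨t0, h8, h0⟩ := Pool.Agent.TH545.Nag.exists_t0
  refine ⟨t0, h8, fun n => ?_⟩
  obtain ⟨f, hf, hf'⟩ := exists_conds_all (K := ℂ) n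
  refine ⟨f, hf, fun p hp L c hS => ?_⟩
  obtain ⟨_, hpos, hsq, hNf⟩ := hS.props h0
  refine ⟨hsq, fun g hg => ?_⟩
  refine cone_le (fun j => (hpos _ (List.get_mem L j)).le) fun F e m hF he hF0 hm => ?_
  by_contra hcon
  push Not at hcon
  obtain ⟨x, hx⟩ := hNf (fun j => m (g j)) e (by linarith)
  refine hF0 (hf' p hp e m ⟨_, noForm_ext hg hx⟩ F hF ?_)
  unfold ptJ vIdeal
  rw [Ideal.mem_iInf]
  intro i
  exact mem_of_support (p := p i) (hm i)

end Pool.Agent.Results.MP_309968_ag.IrrationalRays
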